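import Pool.Agent.H72.UZ.TarZ
import Pool.Agent.H45.UZ.TarP

/-!
# MP_f6fd33_lc, module Q4: entries and the sets of level `l`
-/

set_option linter.unusedVariables false

open Ordinal Order Set
open scoped ZFSet

namespace SE.UZ

open SF

namespace QFR

/-- the elements of an ordinal are comparable -/
theorem cmpr {κ ξ η : V} (hκ : IsOrd κ) (hξ : ξ ∈ κ) (hη : η ∈ κ) : ξ ⊆ η ∨ η ⊆ ξ := by
  obtain ⟨α, rfl⟩ := hκ
  obtain ⟨a, -, rfl⟩ := Ordinal.mem_toZFSet_iff.1 hξ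
  obtain ⟨b, -, rfl⟩ := Ordinal.mem_toZFSet_iff.1 hη
  rcases le_total a b with h | h
  · left
    intro x hx
    obtain ⟨c, hc, rfl⟩ := Ordinal.mem_toZFSet_iff.1 hx
    exact Ordinal.mem_toZFSet_iff.2 ⟨c, lt_of_lt_of_le hc h, rfl⟩
  · right
    intro x hx
    obtain ⟨c, hc, rfl⟩ := Ordinal.mem_toZFSet_iff.1 hx
    exact Ordinal.mem_toZFSet_iff.2 ⟨c, lt_of_lt_of_le hc h, rfl⟩

theorem tr_of_cld {L ρ : V} (h : Cld L ρ) : Tr ρ := fun i hi => (h i hi).2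

/-- entries depend on the restriction of the filter only -/
theorem ent_res (hPHA : T_PHA) (hBL : T_BL) {D : Cx} (hD : D.Ok) {ρ G s r h : V}
    {σ : Ordinal.{0}} (hρ : D.N ρ) (hc : Cld D.L ρ) (hG : D.Gn ρ G) (hs : D.N s)
    (hsc : Cld D.L s) (hr : D.N r) (hrc : Cld D.L r) (hsr : s ⊆ r) (hrρ : r ⊆ ρ)
    (hh : His D s h σ) (X : V) :
    (∀ y e, Ent h G X y e ↔ Ent h (gs G r) X y e) ∧ (Dcc h G X ↔ Dcc h (gs G r) X) := by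
  obtain ⟨-, hbl⟩ := hBL D hD ρ G hρ hc hG
  obtain ⟨g1, -, -, -, -, -, g7⟩ := hbl r hr hrρ (tr_of_cld hrc)
  have h1 := (hPHA D hD s ρ h σ hs hsc hρ hc (fun _ hx => hrρ (hsr hx)) hh).1 G hG
  have h2 := (hPHA D hD s r h σ hs hsc hr hrc hsr hh).1 _ g1
  rw [g7 s hsr] at h2
  exact ⟨fun y e => (h1.1 X y e).1.trans (h2.1 X y e).1.symm, (h1.2 X).trans (h2.2 X).symm⟩

/-- reals of restrictions -/
theorem rr_res (hBL : T_BL) {D : Cx} (hD : D.Ok) {ρ G s r : V} (hρ : D.N ρ) (hc : Cld D.L ρ)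
    (hG : D.Gn ρ G) (hr : D.N r) (hrc : Cld D.L r) (hsr : s ⊆ r) (hrρ : r ⊆ ρ) (x : V) :
    RR D s (gs G r) x ↔ RR D s G x := by
  obtain ⟨-, hbl⟩ := hBL D hD ρ G hρ hc hG
  obtain ⟨g1, -, -, -, -, -, g7⟩ := hbl r hr hrρ (tr_of_cld hrc)
  unfold RR
  rw [g7 s hsr]

end QFR

open QFR in
theorem pf_Q4 (hQ3 : T_Q3) (hQ4a : T_Q4a) (hPWE : T_PWE) (hPW2 : T_PW2) (hPLW : T_PLW)
    (hPHA : T_PHA) (hQRN : T_QRN) (hRH : T_RH) (hAH : T_AH) (hBL : T_BL) (hW0 : T_W0) :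
    T_Q4 := by
  intro D κ b hA hb F Λ G hF a x ha ha' hx hx'
  obtain ⟨hch, hun, hΛ, hcs, hreal, hmon, hwd, henu, huniq, hdec, hlast⟩ :=
    hQ3 D κ b hA hb F Λ G hF _ rfl
  obtain ⟨q4a, q4b⟩ := hQ4a D κ b hA hb F Λ G hF _ rfl
  set C := resS κ (fun ξ => tK (app F ξ) ξ) with hC
  have hCapp : ∀ ξ ∈ κ, app C ξ = tK (app F ξ) ξ := fun ξ hξ => app_resS hξ
  have hD : D.Ok := hA.ok
  have hG : D.Gn Λ G := hF.g
  have hNΛ : D.N Λ := hD.zfc.trans _ hD.hN _ hΛ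
  have hcΛ : Cld D.L Λ := hcs.c
  have hO : ∀ ξ ∈ κ, app C ξ ∈ b.Ob := hch.o
  have hsub : ∀ ξ ∈ κ, b.u (app C ξ) ⊆ Λ := by
    intro ξ hξ i hi
    rw [← hun]
    exact ZFSet.mem_sUnion.2 ⟨_, mem_imS.2 ⟨ξ, hξ, rfl⟩, hi⟩
  have hNs : ∀ B ∈ b.Ob, D.N (b.u B) := fun B hB => hD.zfc.trans _ hD.hN _ (hb.cs _ hB).h
  have hcB : ∀ B ∈ b.Ob, Cld D.L (b.u B) := fun B hB => (hb.cs _ hB).c
  have hgn : ∀ B ∈ b.Ob, b.u B ⊆ Λ → D.Gn (b.u B) (gs G (b.u B)) := fun B hB hs =>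
    ((hBL D hD Λ G hNΛ hcΛ hG).2 _ (hNs B hB) hs (tr_of_cld (hcB B hB))).1
  have hgs : ∀ B ∈ b.Ob, b.u B ⊆ Λ → gs (gs G (b.u B)) (b.u B) = gs G (b.u B) :=
    fun B hB hs => (hBL D hD _ _ (hNs B hB) (hcB B hB) (hgn B hB hs)).1
  have hax : Rl (prl a x) := (hAH.1 a x ha' hx').1
  have hXr : Rl (prl (kc 0) (prl a x)) := (hAH.1 _ _ (hAH.2.2.2.1 0).1 hax).1
  -- `W G` is closed under the formation of pairs
  have hqΛ := hQRN D hD Λ G Λ hNΛ hcΛ hG hNΛ (fun _ h => h) (tr_of_cld hcΛ)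
  have hrrΛ : ∀ v, RR D Λ G v ↔ D.W G v ∧ Rl v := hqΛ.2.2.2.1
  have hWX : D.W G (prl (kc 0) (prl a x)) := by
    have h1 : RR D Λ G (prl a x) :=
      hqΛ.2.2.2.2.1 a x ((hrrΛ a).2 ⟨ha, ha'⟩) ((hrrΛ x).2 ⟨hx, hx'⟩)
    have h2 : RR D Λ G (kc 0) := hqΛ.2.2.2.2.2.2.1 0
    exact ((hrrΛ _).1 (hqΛ.2.2.2.2.1 _ _ h2 h1)).1
  set X := prl (kc 0) (prl a x) with hX
  refine ⟨?_, ?_⟩
  · intro y hy hS
    obtain ⟨ξ', hξ', e, he⟩ := (henu X y).1 hy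
    -- the world of the entry
    have hw' := hwd ξ' hξ'
    have hI' := (hPWE b D _ _ _).1 hw'
    have hhis' := hI'.wo.hs
    have hO' := hO ξ' hξ'
    obtain ⟨p1, p2⟩ := (hPHA D hD _ Λ _ _ (hNs _ hO') (hcB _ hO') hNΛ hcΛ (hsub ξ' hξ')
      hhis').1 G hG
    obtain ⟨rX, ry, heσ, heN⟩ := (p1 X y e).2 he
    have hyW : D.W G y ∧ Rl y := by
      have hq := hQRN D hD Λ G _ hNΛ hcΛ hG (hNs _ hO') (hsub ξ' hξ') (tr_of_cld (hcB _ hO'))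
      exact (hq.2.2.2.1 y).1 (hq.2.2.1 y ry)
    have hxy : Rl (prl x y) := (hAH.1 x y hx' hyW.2).1
    have hWxy : D.W G (prl x y) :=
      ((hrrΛ _).1 (hqΛ.2.2.2.2.1 x y ((hrrΛ x).2 ⟨hx, hx'⟩) ((hrrΛ y).2 hyW))).1
    obtain ⟨ξ, hξ, hss⟩ := (q4a a (prl x y) ha ha' hWxy hxy).1 hS
    -- the larger index
    obtain ⟨η, hη, e1, e2⟩ : ∃ η ∈ κ, ξ ⊆ η ∧ ξ' ⊆ η := by
      rcases cmpr hA.ord hξ hξ' with h | h
      · exact ⟨ξ', hξ', h, fun _ h => h⟩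
      · exact ⟨ξ, hξ, fun _ h => h, h⟩
    have hOη := hO η hη
    have hss2 := ((q4b η hη).1 a (prl x y)).1 ((q4b ξ hξ).2 η hη e1 a (prl x y) hss)
    have hLW := (hmon ξ' hξ' η hη e2).2
    have hsub' : b.u (app C ξ') ⊆ b.u (app C η) := (hb.leO _ _ hLW.le).2.2
    have hG' := hgn _ hOη (hsub η hη)
    have hent' : Ent (tH (app F ξ') ξ') (gs G (b.u (app C η))) X y e :=
      ((ent_res hPHA hBL hD hNΛ hcΛ hG (hNs _ hO') (hcB _ hO') (hNs _ hOη) (hcB _ hOη) hsub'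
        (hsub η hη) hhis' X).1 y e).1 he
    have rX' : RR D (b.u (app C ξ')) (gs G (b.u (app C η))) X :=
      (rr_res hBL hD hNΛ hcΛ hG (hNs _ hOη) (hcB _ hOη) hsub' (hsub η hη) X).2 rX
    have hent := ((hLW.e _ hG' X rX' y e).1 ⟨hent', heσ⟩).1
    have hwη := hwd η hη
    have hIη := (hPWE b D _ _ _).1 hwη
    have heη : e < b.rho D η :=
      (((hPHA D hD _ _ _ _ (hNs _ hOη) (hcB _ hOη) (hNs _ hOη) (hcB _ hOη) (fun _ h => h)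
        hIη.wo.hs).1 _ hG').1 X y e).2 hent |>.2.2.1
    refine hIη.w2' e heη _ hG' X y hent ⟨app C η, hr (tH (app F η) η) e,
      gs G (b.u (app C η)), ?_, ?_⟩
    · exact ⟨(hPW2 D κ hA b hb).1 _ _ _ _ heη.le hwη, (hPLW D κ hA b hb).1 _ _ _ hOη, hG',
        hgs _ hOη (hsub η hη)⟩
    · exact ⟨a, x, ha', hx', hX, hss2⟩
  · intro hno y hy hy'
    obtain ⟨ξX, hξX, h1⟩ := hreal X hWX hXr
    obtain ⟨ξy, hξy, h2⟩ := hreal y hy hy'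
    obtain ⟨ξ, hξ, e1, e2⟩ : ∃ η ∈ κ, ξX ⊆ η ∧ ξy ⊆ η := by
      rcases cmpr hA.ord hξX hξy with h | h
      · exact ⟨ξy, hξy, h, fun _ h => h⟩
      · exact ⟨ξX, hξX, fun _ h => h, h⟩
    have r1 := (hmon ξX hξX ξ hξ e1).1 X h1
    have r2 := (hmon ξy hξy ξ hξ e2).1 y h2
    have hξ' : insert ξ ξ ∈ κ := hA.suc ξ hξ
    set T := app F (insert ξ ξ) with hT
    have hTw : b.Tw D κ T := hF.t _ hξ'
    have hRt : b.Rt D κ T := hF.r ξ hξ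
    obtain ⟨w1, w2, w3, w4, -⟩ := hW0 D κ b hA hb T hTw
    have hutΛ : b.ut κ T ⊆ Λ := by
      intro i hi
      rw [hF.l]
      exact ZFSet.mem_sUnion.2 ⟨_, mem_imS.2 ⟨insert ξ ξ, hξ', rfl⟩, hi⟩
    obtain ⟨rX, ry⟩ := hlast ξ hξ (app T ξ) rfl X y r1 r2
    -- the world `p` and its filter
    have hK : tK T ξ ∈ b.Ob := (w4 ξ hξ).1.o
    have hKs : b.u (tK T ξ) ⊆ Λ := fun i hi => hutΛ ((w4 ξ hξ).2.2 hi)
    have hK' : tK T (insert ξ ξ) ∈ b.Ob := (w4 _ hξ').1.o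
    have hKs' : b.u (tK T (insert ξ ξ)) ⊆ Λ := fun i hi => hutΛ ((w4 _ hξ').2.2 hi)
    have hw : b.Wd D (b.rho D ξ) (tK T ξ) (tH T ξ) := (w4 ξ hξ).2.1
    have hw' : b.Wd D (b.rho D (insert ξ ξ)) (tK T (insert ξ ξ)) (tH T (insert ξ ξ)) :=
      (w4 _ hξ').2.1
    have hI := (hPWE b D _ _ _).1 hw
    have hI' := (hPWE b D _ _ _).1 hw'
    have hG1 := hgn _ hK hKs
    have hG2 := hgn _ hK' hKs'
    have hle : b.u (tK T ξ) ⊆ b.u (tK T (insert ξ ξ)) := by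
      have h3 := hTw.t0 ξ hξ _ hξ' (ZFSet.mem_insert ξ ξ)
      exact (hb.leO _ _ h3.le).2.2
    have hgg : gs (gs G (b.u (tK T (insert ξ ξ)))) (b.u (tK T ξ)) = gs G (b.u (tK T ξ)) := by
      obtain ⟨-, -, -, -, -, -, g7⟩ := (hBL D hD Λ G hNΛ hcΛ hG).2 _ (hNs _ hK') hKs'
        (tr_of_cld (hcB _ hK'))
      exact g7 _ hle
    -- `X` is not decided
    have hnd : ¬ Dcc (tH T ξ) G X := by
      rintro ⟨y', e, h⟩
      exact hno y' ⟨insert ξ ξ, hξ', ξ, hξ, e, h⟩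
    have hnd1 : ¬ Dcc (tH T ξ) (gs G (b.u (tK T ξ))) X := by
      rw [← (ent_res hPHA hBL hD hNΛ hcΛ hG (hNs _ hK) (hcB _ hK) (hNs _ hK) (hcB _ hK)
        (fun _ h => h) hKs hI.wo.hs X).2]
      exact hnd
    have hnd2 : ¬ Dcc (tH T ξ) (gs G (b.u (tK T (insert ξ ξ)))) X := by
      rw [← (ent_res hPHA hBL hD hNΛ hcΛ hG (hNs _ hK) (hcB _ hK) (hNs _ hK') (hcB _ hK')
        hle hKs' hI.wo.hs X).2]
      exact hnd
    have rX1 : RR D (b.u (tK T ξ)) (gs G (b.u (tK T ξ))) X :=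
      (rr_res hBL hD hNΛ hcΛ hG (hNs _ hK) (hcB _ hK) (fun _ h => h) hKs X).2 rX
    have ry1 : RR D (b.u (tK T ξ)) (gs G (b.u (tK T ξ))) y :=
      (rr_res hBL hD hNΛ hcΛ hG (hNs _ hK) (hcB _ hK) (fun _ h => h) hKs y).2 ry
    have rX2 : RR D (b.u (tK T ξ)) (gs G (b.u (tK T (insert ξ ξ)))) X :=
      (rr_res hBL hD hNΛ hcΛ hG (hNs _ hK') (hcB _ hK') hle hKs' X).2 rX
    have ry2 : RR D (b.u (tK T ξ)) (gs G (b.u (tK T (insert ξ ξ)))) y :=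
      (rr_res hBL hD hNΛ hcΛ hG (hNs _ hK') (hcB _ hK') hle hKs' y).2 ry
    have hLs := ((hRH D κ b hA hb).1 ξ hξ).1
    have hnR : ¬ b.Rg D (b.Wd D) (b.rho D ξ) (tK T ξ) (tH T ξ) (gs G (b.u (tK T ξ))) X :=
      hLs _ _ hw _ hG1 X rX1 hnd1
    have hPt : ¬ b.Pt (tK T ξ) (gs G (b.u (tK T (insert ξ ξ)))) X := by
      rintro ⟨i, hi, -, hXi⟩
      have hq := hQRN D hD _ _ (b.u (tK T ξ)) (hNs _ hK') (hcB _ hK') hG2 (hNs _ hK) hle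
        (tr_of_cld (hcB _ hK))
      have hri : Rl (prm (gs G (b.u (tK T (insert ξ ξ)))) i) :=
        (hq.2.2.2.2.2.2.2.2.1 i (hle hi)).2.2
      have h3 := hAH.2.1 _ _ _ _ (hAH.2.2.2.1 0).1 hax (hAH.2.2.2.1 1).1 hri (hX.symm.trans hXi)
      have h4 := hAH.2.2.2.2.1 0 1 h3.1
      omega
    have hnN : ¬ b.Nn D (b.Wd D) (b.rho D ξ) (tK T ξ) (tH T ξ) (gs G (b.u (tK T ξ))) X := by
      intro hN
      have hN2 : b.Nn D (b.Wd D) (b.rho D ξ) (fst (app T ξ)) (snd (app T ξ))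
          (gs (gs G (b.u (tK T (insert ξ ξ)))) (b.u (fst (app T ξ)))) X := by
        have h3 : gs (gs G (b.u (tK T (insert ξ ξ)))) (b.u (fst (app T ξ))) =
          gs G (b.u (tK T ξ)) := hgg
        rw [h3]
        exact hN
      obtain ⟨y', hy'⟩ := hTw.t2 ξ hξ _ hG2 X rX2 hnd2 hN2 hPt
      have h4 : Ent (tH T (insert ξ ξ)) G X y' (b.rho D ξ) :=
        ((ent_res hPHA hBL hD hNΛ hcΛ hG (hNs _ hK') (hcB _ hK') (hNs _ hK') (hcB _ hK')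
          (fun _ h => h) hKs' hI'.wo.hs X).1 y' _).2 hy'
      exact hno y' ⟨insert ξ ξ, hξ', insert ξ ξ, hξ', _, h4⟩
    have hKb : b.Kb D (b.Wd D) (b.rho D ξ) (tK T ξ) (tH T ξ) (gs G (b.u (tK T ξ))) X y := by
      by_contra hnk
      exact hnR ⟨hnN, y, ry1, hnk⟩
    have hKb2 : b.Kb D (b.Wd D) (b.rho D ξ) (fst (app T ξ)) (snd (app T ξ))
        (gs (gs G (b.u (tK T (insert ξ ξ)))) (b.u (fst (app T ξ)))) X y := by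
      have h3 : gs (gs G (b.u (tK T (insert ξ ξ)))) (b.u (fst (app T ξ))) =
        gs G (b.u (tK T ξ)) := hgg
      rw [h3]
      exact hKb
    obtain ⟨a', x', ha1, hx1, hXe, hss⟩ := hRt.r1 ξ hξ _ hG2 X y rX2 ry2 hKb2
    have hax' : Rl (prl a' x') := (hAH.1 a' x' ha1 hx1).1
    have h3 := (hAH.2.1 _ _ _ _ (hAH.2.2.2.1 0).1 hax (hAH.2.2.2.1 0).1 hax'
      (hX.symm.trans hXe)).2
    obtain ⟨rfl, rfl⟩ := hAH.2.1 _ _ _ _ ha' hx' ha1 hx1 h3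
    have hxy : Rl (prl x y) := (hAH.1 x y hx' hy').1
    have hWxy : D.W G (prl x y) :=
      ((hrrΛ _).1 (hqΛ.2.2.2.2.1 x y ((hrrΛ x).2 ⟨hx, hx'⟩) ((hrrΛ y).2 ⟨hy, hy'⟩))).1
    refine (q4a a (prl x y) ha ha' hWxy hxy).2 ⟨insert ξ ξ, hξ', ?_⟩
    refine ((q4b _ hξ').1 a (prl x y)).2 ?_
    rw [hCapp _ hξ']
    exact hss

end SE.UZ
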