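import Pool.Agent.H72.UZ.TarZ
import Pool.Agent.H45.UZ.TarP

/-!
# MP_f6fd33_lc, module Q4a: the sets of level `l` in the extension
-/

set_option linter.unusedVariables false

open Ordinal Order Set
open scoped ZFSet

namespace SE.UZ

open SF

namespace QFA

/-- the elements of an ordinal are comparable -/
theorem cmpr {κ ξ η : V} (hκ : IsOrd κ) (hξ : ξ ∈ κ) (hη : η ∈ κ) : ξ ⊆ η ∨ η ⊆ ξ := by
  obtain ⟨α, rfl⟩ := hκ
  obtain ⟨a, -, rfl⟩ := Ordinal.mem_toZFSet_iff.1 hξ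
  obtain ⟨b, -, rfl⟩ := Ordinal.mem_toZFSet_iff.1 hη
  rcases le_total a b with h | h
  · left
    intro x hx
    obtain ⟨c, hc, rfl⟩ := Ordinal.mem_toZFSet_iff.1 hx
    exact Ordinal.mem_toZFSet_iff.2 ⟨c, lt_of_lt_of_le hc h, rfl⟩
  · right
    intro x hx
    obtain ⟨c, hc, rfl⟩ := Ordinal.mem_toZFSet_iff.1 hx
    exact Ordinal.mem_toZFSet_iff.2 ⟨c, lt_of_lt_of_le hc h, rfl⟩

theorem tr_of_cld {L ρ : V} (h : Cld L ρ) : Tr ρ := fun i hi => (h i hi).2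

theorem dm_sub {L s p : V} (h : p ∈ Pos L s) : dm p ⊆ s := by
  intro x hx
  obtain ⟨y, hy⟩ := mem_dm.1 hx
  have h1 := (ZFSet.mem_sep.1 h).1
  have h2 : p ⊆ ZFSet.prod s (Qs L) := ZFSet.mem_powerset.1 (ZFSet.mem_sep.1 h1).1
  exact (ZFSet.pair_mem_prod.1 (h2 hy)).1

/-- the secured facts depend on the restriction of the filter only -/
theorem se_res (hBK : T_BK) {D : Cx} (hD : D.Ok) {κ : V} {b : BS} (hb : b.Ok D κ) {ρ G : V}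
    (hρ : D.N ρ) (hc : Cld D.L ρ) (hG : D.Gn ρ G) {B : V} (hB : B ∈ b.Ob) (hs : b.u B ⊆ ρ)
    (a x : V) : b.Se B G a x ↔ b.Se B (gs G (b.u B)) a x := by
  have hcs := hb.cs B hB
  have hN : D.N (b.u B) := hD.zfc.trans _ hD.hN _ hcs.h
  have htr : Tr (b.u B) := tr_of_cld hcs.c
  have hk := (hBK D hD ρ G hρ hc hG).1 (b.u B)
  constructor
  · rintro ⟨p, hp, a', x', h1, h2, h3⟩
    obtain ⟨-, hp', ⟨ha1, ha2⟩, hx1, hx2⟩ := hb.sc _ _ _ _ h1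
    refine ⟨p, ZFSet.mem_sep.2 ⟨hp, dm_sub hp'⟩, a', x', h1, ?_, ?_⟩
    · rw [(hk a' hN hs htr ha1 ha2).2.2.2.2.2 _ (fun _ h => h), h2]
    · rw [(hk x' hN hs htr hx1 hx2).2.2.2.2.2 _ (fun _ h => h), h3]
  · rintro ⟨p, hp, a', x', h1, h2, h3⟩
    obtain ⟨-, hp', ⟨ha1, ha2⟩, hx1, hx2⟩ := hb.sc _ _ _ _ h1
    refine ⟨p, (ZFSet.mem_sep.1 hp).1, a', x', h1, ?_, ?_⟩
    · rw [← (hk a' hN hs htr ha1 ha2).2.2.2.2.2 _ (fun _ h => h), h2]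
    · rw [← (hk x' hN hs htr hx1 hx2).2.2.2.2.2 _ (fun _ h => h), h3]

/-- the arguments of the secured facts are reals of the restriction -/
theorem se_rr (hQ : T_QRN) {D : Cx} (hD : D.Ok) {κ : V} {b : BS} (hb : b.Ok D κ) {ρ G : V}
    (hρ : D.N ρ) (hc : Cld D.L ρ) (hG : D.Gn ρ G) {B : V} (hB : B ∈ b.Ob) (hs : b.u B ⊆ ρ)
    {a x : V} (h : b.Se B G a x) : RR D (b.u B) G a ∧ RR D (b.u B) G x := by
  have hcs := hb.cs B hB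
  have hN : D.N (b.u B) := hD.zfc.trans _ hD.hN _ hcs.h
  have htr : Tr (b.u B) := tr_of_cld hcs.c
  obtain ⟨q1, -⟩ := hQ D hD ρ G (b.u B) hρ hc hG hN hs htr
  obtain ⟨p, hp, a', x', h1, h2, h3⟩ := h
  obtain ⟨-, hp', ⟨ha1, ha2⟩, hx1, hx2⟩ := hb.sc _ _ _ _ h1
  exact ⟨(q1 a).2 ⟨a', ha1, ha2, h2⟩, (q1 x).2 ⟨x', hx1, hx2, h3⟩⟩

end QFA

open QFA in
theorem pf_Q4a (hQ3 : T_Q3) (hQRN : T_QRN) (hBK : T_BK) (hBL : T_BL) : T_Q4a := by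
  intro D κ b hA hb F Λ G hF C hC
  obtain ⟨hch, hun, hΛ, hcs, hreal, hmon, -⟩ := hQ3 D κ b hA hb F Λ G hF C hC
  have hD : D.Ok := hA.ok
  have hG : D.Gn Λ G := hF.g
  have hNΛ : D.N Λ := hD.zfc.trans _ hD.hN _ hΛ
  have hcΛ : Cld D.L Λ := hcs.c
  have hO : ∀ ξ ∈ κ, app C ξ ∈ b.Ob := hch.o
  have hsub : ∀ ξ ∈ κ, b.u (app C ξ) ⊆ Λ := by
    intro ξ hξ i hi
    rw [← hun]
    exact ZFSet.mem_sUnion.2 ⟨_, mem_imS.2 ⟨ξ, hξ, rfl⟩, hi⟩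
  have hNs : ∀ ξ ∈ κ, D.N (b.u (app C ξ)) := fun ξ hξ =>
    hD.zfc.trans _ hD.hN _ (hb.cs _ (hO ξ hξ)).h
  have htr : ∀ ξ ∈ κ, Tr (b.u (app C ξ)) := fun ξ hξ => tr_of_cld (hb.cs _ (hO ξ hξ)).c
  have hq : ∀ ξ (hξ : ξ ∈ κ), _ := fun ξ hξ =>
    hQRN D hD Λ G (b.u (app C ξ)) hNΛ hcΛ hG (hNs ξ hξ) (hsub ξ hξ) (htr ξ hξ)
  have htru := (hb.tru C hch G (by rw [hun]; exact hG)).1
  have hl : b.l = (b.l - 1) + 1 := by
    have := hb.l3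
    omega
  refine ⟨?_, ?_⟩
  · intro a z ha ha' hz hz'
    rw [hl]
    constructor
    · rintro ⟨v, hv, hv', hn⟩
      obtain ⟨ξa, hξa, h1⟩ := hreal a ha ha'
      obtain ⟨ξz, hξz, h2⟩ := hreal z hz hz'
      obtain ⟨ξv, hξv, h3⟩ := hreal v hv hv'
      -- the largest index
      obtain ⟨ξ, hξ, e1, e2, e3⟩ : ∃ ξ ∈ κ, ξa ⊆ ξ ∧ ξz ⊆ ξ ∧ ξv ⊆ ξ := by
        rcases cmpr hA.ord hξa hξz with h | h
        · rcases cmpr hA.ord hξz hξv with h' | h'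
          · exact ⟨ξv, hξv, fun x hx => h' (h hx), h', fun x hx => hx⟩
          · exact ⟨ξz, hξz, h, fun x hx => hx, h'⟩
        · rcases cmpr hA.ord hξa hξv with h' | h'
          · exact ⟨ξv, hξv, h', fun x hx => h' (h hx), fun x hx => hx⟩
          · exact ⟨ξa, hξa, fun x hx => hx, h, h'⟩
      have r1 := (hmon ξa hξa ξ hξ e1).1 a h1
      have r2 := (hmon ξz hξz ξ hξ e2).1 z h2
      have r3 := (hmon ξv hξv ξ hξ e3).1 v h3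
      have r4 : RR D (b.u (app C ξ)) G (prl z v) := (hq ξ hξ).2.2.2.2.1 z v r2 r3
      refine ⟨ξ, hξ, v, r3, ?_⟩
      exact (htru ξ hξ a (prl z v) r1 r4).1 hn
    · rintro ⟨ξ, hξ, v, hv, hse⟩
      obtain ⟨r1, r2⟩ := se_rr hQRN hD hb hNΛ hcΛ hG (hO ξ hξ) (hsub ξ hξ) hse
      have r3 : D.W G v ∧ Rl v := ((hq ξ hξ).2.2.2.1 v).1 ((hq ξ hξ).2.2.1 v hv)
      exact ⟨v, r3.1, r3.2, (htru ξ hξ a (prl z v) r1 r2).2 hse⟩
  · intro ξ hξ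
    refine ⟨?_, ?_⟩
    · intro a z
      unfold BS.Ss
      refine exists_congr fun v => ?_
      rw [(hq ξ hξ).2.1 v, se_res hBK hD hb hNΛ hcΛ hG (hO ξ hξ) (hsub ξ hξ)]
    · intro η hη hξη a z
      rintro ⟨v, hv, hse⟩
      refine ⟨v, (hmon ξ hξ η hη hξη).1 v hv, ?_⟩
      obtain ⟨r1, r2⟩ := se_rr hQRN hD hb hNΛ hcΛ hG (hO ξ hξ) (hsub ξ hξ) hse
      have hle : b.Le (app C ξ) (app C η) := (hmon ξ hξ η hη hξη).2.le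
      have hss : b.u (app C ξ) ⊆ b.u (app C η) := (hb.leO _ _ hle).2.2
      obtain ⟨-, hbl⟩ := hBL D hD Λ G hNΛ hcΛ hG
      obtain ⟨g1, -, -, -, -, -, g7⟩ := hbl _ (hNs η hη) (hsub η hη) (htr η hη)
      have hcη := (hb.cs _ (hO η hη)).c
      have hrr : ∀ x, RR D (b.u (app C ξ)) G x → RR D (b.u (app C ξ)) (gs G (b.u (app C η))) x := by
        intro x hx
        refine ⟨?_, hx.2⟩
        rw [g7 _ hss]
        exact hx.1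
      have hab := hb.ab _ _ hle _ g1 a (prl z v) (hrr _ r1) (hrr _ r2)
      have e1 := se_res hBK hD hb hNΛ hcΛ hG (hO ξ hξ) (hsub ξ hξ) a (prl z v)
      have e2 := se_res hBK hD hb (hNs η hη) hcη g1 (hO ξ hξ) hss a (prl z v)
      rw [g7 _ hss] at e2
      have e3 := se_res hBK hD hb hNΛ hcΛ hG (hO η hη) (hsub η hη) a (prl z v)
      exact e3.2 (hab.1 (e2.2 (e1.1 hse)))

end SE.UZ
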